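import Pool.Agent.X172.MSS.Gap

set_option autoImplicit false

namespace Pool.Agent.Results.MP_8e2f96_co.GapVersusHeight

open Finset Matrix Pool.Agent.X172.MagLap Pool.Agent.X172.MSS

variable {V : Type} [Fintype V] [DecidableEq V] [Nonempty V]

theorem height_bound {d : ℕ} (hd : 3 ≤ d) (G : SimpleGraph V) [DecidableRel G.Adj]
    (hdeg : ∀ v, d ≤ G.degree v) : (d : ℝ) - 2 * Real.sqrt ((d : ℝ) - 1) ≤ nu G := by
  apply nu_of_cert
  intro x hx
  set r := Real.sqrt ((d : ℝ) - 1) with hr
  have hd' : (3 : ℝ) ≤ d := by exact_mod_cast hd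
  have hr2 : r ^ 2 = (d : ℝ) - 1 := Real.sq_sqrt (by linarith)
  have hr1 : 1 < r := by
    rw [hr]
    exact Real.lt_sqrt_of_sq_lt (by nlinarith)
  have hr0 : 0 < r := by linarith
  have hinv : 1 / r < 1 := by
    rw [div_lt_one hr0]
    exact hr1
  have hdr : (d : ℝ) - d * (1 / r) - (d - 2 * r) = (d - 2) / r := by
    field_simp
    nlinarith [hr2]
  have hdr2 : (d : ℝ) - (d - 1) * (1 / r) - (d - 2 * r) = r := by
    field_simp
    nlinarith [hr2]
  refine ⟨fun _ _ => r, fun _ _ _ => hr0, ?_, ?_⟩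
  · intro v p hvp
    have hmem : p ∈ G.neighborFinset v := (G.mem_neighborFinset v p).mpr hvp
    rw [sum_const, card_erase_of_mem hmem, G.card_neighborFinset_eq_degree, nsmul_eq_mul]
    have h1 : (d : ℝ) ≤ G.degree v := by exact_mod_cast hdeg v
    have h2 : ((G.degree v - 1 : ℕ) : ℝ) = (G.degree v : ℝ) - 1 := by
      rw [Nat.cast_sub (by have := hdeg v; omega)]
      simp
    rw [h2]
    nlinarith [mul_nonneg (sub_nonneg.mpr h1) (sub_nonneg.mpr hinv.le)]
  · intro v
    rw [sum_const, G.card_neighborFinset_eq_degree, nsmul_eq_mul]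
    have h1 : (d : ℝ) ≤ G.degree v := by exact_mod_cast hdeg v
    have h3 : 0 < ((d : ℝ) - 2) / r := div_pos (by linarith) hr0
    nlinarith [mul_nonneg (sub_nonneg.mpr h1) (sub_nonneg.mpr hinv.le)]

/-- minimum degree at least three -/
theorem case_three (G : SimpleGraph V) [DecidableRel G.Adj] (v : V) (hv : 3 ≤ G.degree v)
    (hmin : ∀ u, G.degree v ≤ G.degree u) : lam2 G ≤ 40 * nu G ∧ 0 < nu G := by
  have hn : 2 ≤ Fintype.card V := by
    have := G.degree_lt_card_verts v
    omega
  have h1 := lam2_le_degree G v hn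
  have h2 := height_bound hv G hmin
  set d : ℝ := ((G.degree v : ℕ) : ℝ) with hdd
  have hd : (3 : ℝ) ≤ d := by
    rw [hdd]
    exact_mod_cast hv
  have h3 : 2 * Real.sqrt (d - 1) ≤ 19 / 20 * d := by
    have h4 : Real.sqrt (d - 1) ≤ 19 / 40 * d := by
      apply Real.sqrt_le_iff.mpr
      constructor
      · linarith
      · nlinarith
    linarith
  constructor <;> linarith

/-- minimum degree equal to two -/
theorem case_two (G : SimpleGraph V) [DecidableRel G.Adj] (hdeg : ∀ u, 2 ≤ G.degree u) (v : V)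
    (hv : G.degree v = 2) : lam2 G ≤ 1512 * nu G := by
  classical
  have hn : 2 ≤ Fintype.card V := by
    have := G.degree_lt_card_verts v
    omega
  set P : ℕ → Prop := fun t => ∃ p v, G.Adj p v ∧ Chain G t (univ.erase p) p v with hP
  have hbd : ∀ t, P t → t ≤ Fintype.card V := by
    rintro t ⟨p, v, _, h⟩
    refine (Chain.card G h).trans ?_
    exact (card_erase_le).trans (card_univ).le
  have hP1 : P 1 := by
    have hc : (G.neighborFinset v).card = 2 := by rw [G.card_neighborFinset_eq_degree, hv]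
    obtain ⟨p, u, hpu, heq⟩ := card_eq_two.mp hc
    have hp : G.Adj v p := (G.mem_neighborFinset v p).mp (by rw [heq]; simp)
    have hu : G.Adj v u := (G.mem_neighborFinset v u).mp (by rw [heq]; simp)
    exact ⟨p, v, hp.symm, hv, mem_erase.mpr ⟨hp.ne, mem_univ v⟩, u, hpu.symm, hu, trivial⟩
  set K := Nat.findGreatest P (Fintype.card V) with hK
  have hPK : P K := Nat.findGreatest_spec (m := 1) (by omega) hP1
  have hK1 : 1 ≤ K := Nat.le_findGreatest (by omega) hP1
  have hno : ∀ p v, G.Adj p v → ¬ Chain G (K + 1) (univ.erase p) p v := by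
    intro p v hpv hch
    have h1 : P (K + 1) := ⟨p, v, hpv, hch⟩
    have h2 : K + 1 ≤ K := Nat.le_findGreatest (hbd _ h1) h1
    omega
  have hnu := nu_of_chain G hdeg hno
  have hKpos : (0 : ℝ) < ((K : ℝ) + 1) ^ 2 := by positivity
  have hlam : lam2 G ≤ 42 / ((K : ℝ) + 1) ^ 2 := by
    rcases Nat.lt_or_ge K 2 with h | h
    · have hKeq : K = 1 := by omega
      have h1 := lam2_le_degree G v hn
      rw [hv] at h1
      rw [hKeq]
      norm_num at h1 ⊢
      linarith
    · obtain ⟨p, u, hpu, hch⟩ := hPK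
      exact lam2_le_chain G h hpu hch
  refine hlam.trans ?_
  have h3 : 42 / ((K : ℝ) + 1) ^ 2 = 1512 * (1 / (36 * ((K : ℝ) + 1) ^ 2)) := by
    field_simp
    norm_num
  rw [h3]
  exact mul_le_mul_of_nonneg_left hnu (by norm_num)

/-- `λ_2(G) ≤ 1512 ν(G)` for every finite graph with minimum degree at least two; hence for each
`d ≥ 2` there is a constant as required. -/
theorem result :
    (∀ (V : Type) [Fintype V] [DecidableEq V] [Nonempty V] (G : SimpleGraph V)
      [DecidableRel G.Adj], (∀ v, 2 ≤ G.degree v) → lam2 G ≤ 1512 * nu G) ∧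
    (∀ d : ℕ, 2 ≤ d → ∃ c : ℝ, 0 < c ∧ ∀ (V : Type) [Fintype V] [DecidableEq V] [Nonempty V]
      (G : SimpleGraph V) [DecidableRel G.Adj], G.Connected → (∀ v, d ≤ G.degree v) →
      lam2 G ≤ c * nu G) := by
  have main : ∀ (V : Type) [Fintype V] [DecidableEq V] [Nonempty V] (G : SimpleGraph V)
      [DecidableRel G.Adj], (∀ v, 2 ≤ G.degree v) → lam2 G ≤ 1512 * nu G := by
    intro V _ _ _ G _ hdeg
    obtain ⟨v, _, hv⟩ := exists_min_image univ (fun u => G.degree u) univ_nonempty
    rcases Nat.lt_or_ge 2 (G.degree v) with h | h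
    · have hmin : ∀ u, G.degree v ≤ G.degree u := fun u => hv u (mem_univ u)
      obtain ⟨h1, h2⟩ := case_three G v h hmin
      linarith
    · exact case_two G hdeg v (le_antisymm h (hdeg v))
  refine ⟨main, fun d hd => ⟨1512, by norm_num, ?_⟩⟩
  intro V _ _ _ G _ _ hdeg
  exact main V G (fun v => hd.trans (hdeg v))

end Pool.Agent.Results.MP_8e2f96_co.GapVersusHeight
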